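import Pool.Agent.Y307.WS.Ex

set_option autoImplicit false

open MvPolynomial Finset

namespace Pool.Agent.Y307.WS

variable {N : ℕ}

lemma aeval_inSpan {α : Fin N →₀ ℕ} {k : ℕ} {P : Polynomial ℂ} (h : P.natDegree ≤ k) :
    InSpan {γ : Fin N →₀ ℕ | ∃ j ≤ k, γ = j • α} (Polynomial.aeval (monomial α (1 : ℂ)) P) := by
  rw [Polynomial.aeval_eq_sum_range' (n := k + 1) (by omega)]
  refine inSpan_sum _ _ fun j hj => ?_
  rw [monomial_pow, one_pow, smul_monomial]
  exact inSpan_monomial _ ⟨j, by rw [Finset.mem_range] at hj; omega, rfl⟩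

lemma smul_inj {α : Fin N →₀ ℕ} (hα : α ≠ 0) {j j' : ℕ} (h : j • α = j' • α) : j = j' := by
  obtain ⟨i, hi⟩ : ∃ i, α i ≠ 0 := by
    by_contra hc
    push Not at hc
    exact hα (by ext i; exact hc i)
  have := DFunLike.congr_fun h i
  simp only [Finsupp.smul_apply, smul_eq_mul] at this
  exact Nat.eq_of_mul_eq_mul_right (Nat.pos_of_ne_zero hi) this

lemma exists_poly {α : Fin N →₀ ℕ} (hα : α ≠ 0) {k : ℕ} {q : MvPolynomial (Fin N) ℂ}
    (hq : InSpan {γ : Fin N →₀ ℕ | ∃ j ≤ k, γ = j • α} q) :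
    ∃ P : Polynomial ℂ, P.natDegree ≤ k ∧ Polynomial.aeval (monomial α (1 : ℂ)) P = q := by
  classical
  refine ⟨∑ j ∈ range (k + 1), Polynomial.C (q.coeff (j • α)) * Polynomial.X ^ j, ?_, ?_⟩
  · refine Polynomial.natDegree_sum_le_of_forall_le _ _ fun j hj => ?_
    refine (Polynomial.natDegree_C_mul_X_pow_le _ _).trans ?_
    rw [Finset.mem_range] at hj
    omega
  · rw [map_sum]
    simp only [map_mul, map_pow, Polynomial.aeval_X, Polynomial.aeval_C, algebraMap_eq,
      monomial_pow, one_pow, C_mul_monomial, mul_one]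
    ext m
    rw [coeff_sum]
    simp only [coeff_monomial]
    by_cases hm : m ∈ q.support
    · obtain ⟨j, hj, rfl⟩ := hq m hm
      rw [Finset.sum_eq_single j]
      · rw [if_pos rfl]
      · intro j' _ hne
        rw [if_neg]
        intro h'
        exact hne (smul_inj hα h')
      · intro h'
        exact absurd (Finset.mem_range.2 (by omega)) h'
    · rw [notMem_support_iff] at hm
      rw [hm]
      refine Finset.sum_eq_zero fun j _ => ?_
      split_ifs with h'
      · rw [h', hm]
      · rfl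

/-- approximants with exponents in an initial segment of a ray have no zeros -/
theorem positive {α : Fin N →₀ ℕ} {k : ℕ} {f q : MvPolynomial (Fin N) ℂ} (hf : f.coeff 0 ≠ 0)
    (hq : IsOPA {γ : Fin N →₀ ℕ | ∃ j ≤ k, γ = j • α} f q) {z : Fin N → ℂ}
    (hz : ∀ i, ‖z i‖ ≤ 1) : eval z q ≠ 0 := by
  have hf0 : f ≠ 0 := by rintro rfl; exact hf (coeff_zero _)
  have h0 : (0 : Fin N →₀ ℕ) ∈ {γ : Fin N →₀ ℕ | ∃ j ≤ k, γ = j • α} :=
    ⟨0, Nat.zero_le _, by simp⟩
  have hq0 : q ≠ 0 := by
    rintro rfl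
    have h1 := orth_of_opa (r := 1) hq (inSpan_monomial (1 : ℂ) h0)
    rw [zero_mul, one_mul, ip_sub_left, ip_zero_left, ip_one_left, zero_sub, neg_eq_zero] at h1
    exact hf (by simpa using h1)
  by_cases hα : α = 0
  · have h1 : q = C (q.coeff 0) := by
      ext m
      rw [coeff_C]
      split_ifs with hm
      · rw [← hm]
      · by_contra hc
        obtain ⟨j, _, hj⟩ := hq.1 m (mem_support_iff.2 hc)
        rw [hα, smul_zero] at hj
        exact hm hj.symm
    rw [h1, eval_C]
    intro h2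
    rw [h2, map_zero] at h1
    exact hq0 h1
  · intro hev
    obtain ⟨P, hP, hPq⟩ := exists_poly hα hq.1
    obtain ⟨w, hw⟩ : ∃ w, w = eval z (monomial α (1 : ℂ)) := ⟨_, rfl⟩
    have hwn : ‖w‖ ≤ 1 := by rw [hw]; exact norm_mono_le α hz
    have hPw : P.eval w = 0 := by
      rw [← hPq] at hev
      rw [hw, ← hev]
      rw [Polynomial.aeval_def, Polynomial.hom_eval₂]
      have : (eval z).comp (algebraMap ℂ (MvPolynomial (Fin N) ℂ)) = RingHom.id ℂ := by
        ext c
        simp
      rw [this]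
      rfl
    have hP0 : P ≠ 0 := by
      rintro rfl
      rw [map_zero] at hPq
      exact hq0 hPq.symm
    obtain ⟨R, hR⟩ := Polynomial.dvd_iff_isRoot.2 hPw
    have hR0 : R ≠ 0 := by
      rintro rfl
      rw [mul_zero] at hR
      exact hP0 hR
    have hdeg : (Polynomial.X * R).natDegree ≤ k := by
      rw [Polynomial.natDegree_X_mul hR0]
      have h1 : P.natDegree = 1 + R.natDegree := by
        rw [hR, Polynomial.natDegree_mul (Polynomial.X_sub_C_ne_zero w) hR0,
          Polynomial.natDegree_X_sub_C]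
      omega
    obtain ⟨r, hr⟩ : ∃ r, r = Polynomial.aeval (monomial α (1 : ℂ)) R := ⟨_, rfl⟩
    have h1 : q = (monomial α 1 - C w) * r := by
      rw [← hPq, hR, map_mul, map_sub, Polynomial.aeval_X, Polynomial.aeval_C, ← hr]
      rfl
    have h2 : InSpan {γ : Fin N →₀ ℕ | ∃ j ≤ k, γ = j • α} (monomial α 1 * r) := by
      have := aeval_inSpan (α := α) hdeg
      rw [map_mul, Polynomial.aeval_X, ← hr] at this
      exact this
    have h3 := orth_of_opa hq h2
    rw [ip_sub_left, ip_one_left] at h3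
    have h4 : (monomial α 1 * r * f).coeff 0 = 0 := by
      rw [← constantCoeff_eq, map_mul, map_mul, constantCoeff_mono hα, zero_mul, zero_mul]
    rw [h4, map_zero, sub_zero] at h3
    have h5 : monomial α 1 * r * f = q * f + C w * (r * f) := by rw [h1]; ring
    have h6 : hardyNormSq (monomial α 1 * r * f) = hardyNormSq (r * f) := by
      rw [mul_assoc, hardy_shift]
    rw [h5, ip_add_right, ip_C_right] at h3
    have h7 : (starRingEnd ℂ) w * ip (q * f) (r * f) = -ip (q * f) (q * f) := by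
      linear_combination h3
    rw [h5, hardy_add, hardy_C, ip_C_right, h7, Complex.neg_re, ← hardy_eq] at h6
    have h8 := hardy_nonneg (q * f)
    have h9 := hardy_nonneg (r * f)
    have h10 : ‖w‖ ^ 2 ≤ 1 := pow_le_one₀ (norm_nonneg _) hwn
    have h11 : hardyNormSq (q * f) = 0 := by nlinarith
    exact mul_ne_zero hq0 hf0 (hardy_eq_zero h11)

end Pool.Agent.Y307.WS
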