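import Mathlib

set_option autoImplicit false

open MvPolynomial Finset

namespace Pool.Agent.Y307.WS

/-- Squared norm of a polynomial in the Hardy space of the polydisk: the sum of the squared moduli
of its coefficients. -/
noncomputable def hardyNormSq {N : ℕ} (p : MvPolynomial (Fin N) ℂ) : ℝ :=
  ∑ m ∈ p.support, ‖p.coeff m‖ ^ 2

/-- All monomials of the polynomial `p` have their exponents in the set `I`. -/
def InSpan {N : ℕ} (I : Set (Fin N →₀ ℕ)) (p : MvPolynomial (Fin N) ℂ) : Prop :=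
  ∀ m ∈ p.support, m ∈ I

/-- `q` is an optimal polynomial approximant of `1/f` with exponents in `I` in the Hardy space of
the polydisk: it minimises `‖p f - 1‖` over the polynomials `p` with exponents in `I`. -/
def IsOPA {N : ℕ} (I : Set (Fin N →₀ ℕ)) (f q : MvPolynomial (Fin N) ℂ) : Prop :=
  InSpan I q ∧ ∀ p, InSpan I p → hardyNormSq (q * f - 1) ≤ hardyNormSq (p * f - 1)

variable {N : ℕ}

/-- the scalar product -/
noncomputable def ip (p q : MvPolynomial (Fin N) ℂ) : ℂ :=
  ∑ m ∈ q.support, p.coeff m * (starRingEnd ℂ) (q.coeff m)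

lemma ip_eq_sum {p q : MvPolynomial (Fin N) ℂ} {S : Finset (Fin N →₀ ℕ)} (h : q.support ⊆ S) :
    ip p q = ∑ m ∈ S, p.coeff m * (starRingEnd ℂ) (q.coeff m) := by
  unfold ip
  apply Finset.sum_subset h
  intro m _ hm
  rw [notMem_support_iff] at hm
  simp [hm]

lemma ip_add_left (p p' q : MvPolynomial (Fin N) ℂ) : ip (p + p') q = ip p q + ip p' q := by
  unfold ip
  rw [← Finset.sum_add_distrib]
  refine Finset.sum_congr rfl fun m _ => ?_
  rw [coeff_add, add_mul]

lemma ip_sub_left (p p' q : MvPolynomial (Fin N) ℂ) : ip (p - p') q = ip p q - ip p' q := by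
  unfold ip
  rw [← Finset.sum_sub_distrib]
  refine Finset.sum_congr rfl fun m _ => ?_
  rw [coeff_sub, sub_mul]

lemma ip_C_left (c : ℂ) (p q : MvPolynomial (Fin N) ℂ) : ip (C c * p) q = c * ip p q := by
  unfold ip
  rw [Finset.mul_sum]
  refine Finset.sum_congr rfl fun m _ => ?_
  rw [coeff_C_mul, mul_assoc]

lemma ip_add_right (p q q' : MvPolynomial (Fin N) ℂ) : ip p (q + q') = ip p q + ip p q' := by
  rw [ip_eq_sum (S := q.support ∪ q'.support) support_add,
    ip_eq_sum (p := p) (q := q) (S := q.support ∪ q'.support) Finset.subset_union_left,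
    ip_eq_sum (p := p) (q := q') (S := q.support ∪ q'.support) Finset.subset_union_right,
    ← Finset.sum_add_distrib]
  refine Finset.sum_congr rfl fun m _ => ?_
  rw [coeff_add, map_add, mul_add]

lemma ip_C_right (c : ℂ) (p q : MvPolynomial (Fin N) ℂ) :
    ip p (C c * q) = (starRingEnd ℂ) c * ip p q := by
  have h : (C c * q).support ⊆ q.support := by
    intro m hm
    rw [mem_support_iff] at hm ⊢
    intro h0
    exact hm (by rw [coeff_C_mul, h0, mul_zero])
  rw [ip_eq_sum h, ip, Finset.mul_sum]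
  refine Finset.sum_congr rfl fun m _ => ?_
  rw [coeff_C_mul, map_mul]
  ring

@[simp] lemma ip_zero_right (p : MvPolynomial (Fin N) ℂ) : ip p 0 = 0 := by
  simp [ip]

@[simp] lemma ip_zero_left (p : MvPolynomial (Fin N) ℂ) : ip 0 p = 0 := by
  simp [ip]

lemma ip_sum_right {ι : Type} (s : Finset ι) (g : ι → MvPolynomial (Fin N) ℂ)
    (p : MvPolynomial (Fin N) ℂ) : ip p (∑ i ∈ s, g i) = ∑ i ∈ s, ip p (g i) := by
  classical
  induction s using Finset.induction_on with
  | empty => simp
  | insert i s hi ih => rw [Finset.sum_insert hi, Finset.sum_insert hi, ip_add_right, ih]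

lemma ip_sum_left {ι : Type} (s : Finset ι) (g : ι → MvPolynomial (Fin N) ℂ)
    (p : MvPolynomial (Fin N) ℂ) : ip (∑ i ∈ s, g i) p = ∑ i ∈ s, ip (g i) p := by
  classical
  induction s using Finset.induction_on with
  | empty => simp
  | insert i s hi ih => rw [Finset.sum_insert hi, Finset.sum_insert hi, ip_add_left, ih]

lemma ip_conj (p q : MvPolynomial (Fin N) ℂ) : ip q p = (starRingEnd ℂ) (ip p q) := by
  rw [ip_eq_sum (p := q) (q := p) (S := p.support ∪ q.support) Finset.subset_union_left,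
    ip_eq_sum (p := p) (q := q) (S := p.support ∪ q.support) Finset.subset_union_right, map_sum]
  refine Finset.sum_congr rfl fun m _ => ?_
  rw [map_mul, Complex.conj_conj, mul_comm]

lemma ip_monomial_right (p : MvPolynomial (Fin N) ℂ) (m : Fin N →₀ ℕ) (c : ℂ) :
    ip p (monomial m c) = p.coeff m * (starRingEnd ℂ) c := by
  classical
  rw [ip_eq_sum (S := {m}) support_monomial_subset, Finset.sum_singleton, coeff_monomial,
    if_pos rfl]

lemma ip_one_left (p : MvPolynomial (Fin N) ℂ) : ip 1 p = (starRingEnd ℂ) (p.coeff 0) := by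
  rw [ip_conj]
  have : (1 : MvPolynomial (Fin N) ℂ) = monomial 0 1 := rfl
  rw [this, ip_monomial_right, map_one, mul_one]

lemma hardy_eq (p : MvPolynomial (Fin N) ℂ) : hardyNormSq p = (ip p p).re := by
  unfold hardyNormSq ip
  rw [Complex.re_sum]
  refine Finset.sum_congr rfl fun m _ => ?_
  rw [Complex.mul_conj, Complex.ofReal_re, Complex.normSq_eq_norm_sq]

lemma hardy_nonneg (p : MvPolynomial (Fin N) ℂ) : 0 ≤ hardyNormSq p :=
  Finset.sum_nonneg fun _ _ => by positivity

lemma ip_self (p : MvPolynomial (Fin N) ℂ) : ip p p = (hardyNormSq p : ℂ) := by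
  unfold hardyNormSq ip
  rw [Complex.ofReal_sum]
  refine Finset.sum_congr rfl fun m _ => ?_
  rw [Complex.mul_conj, Complex.normSq_eq_norm_sq]

lemma hardy_eq_zero {p : MvPolynomial (Fin N) ℂ} (h : hardyNormSq p = 0) : p = 0 := by
  unfold hardyNormSq at h
  rw [Finset.sum_eq_zero_iff_of_nonneg (fun _ _ => by positivity)] at h
  rw [← support_eq_empty]
  by_contra hne
  obtain ⟨m, hm⟩ := Finset.nonempty_iff_ne_empty.2 hne
  have := h m hm
  rw [mem_support_iff] at hm
  have h2 : ‖p.coeff m‖ = 0 := by simpa using this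
  exact hm (norm_eq_zero.1 h2)

lemma hardy_add (p q : MvPolynomial (Fin N) ℂ) :
    hardyNormSq (p + q) = hardyNormSq p + hardyNormSq q + 2 * (ip p q).re := by
  rw [hardy_eq, hardy_eq, hardy_eq, ip_add_left, ip_add_right, ip_add_right, ip_conj p q]
  simp only [Complex.add_re, Complex.conj_re]
  ring

lemma ip_shift (α : Fin N →₀ ℕ) (p q : MvPolynomial (Fin N) ℂ) :
    ip (monomial α 1 * p) (monomial α 1 * q) = ip p q := by
  induction q using MvPolynomial.induction_on' with
  | monomial m c =>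
    rw [monomial_mul, one_mul, ip_monomial_right, ip_monomial_right, coeff_monomial_mul, one_mul]
  | add q q' h h' => rw [mul_add, ip_add_right, ip_add_right, h, h']

lemma hardy_shift (α : Fin N →₀ ℕ) (p : MvPolynomial (Fin N) ℂ) :
    hardyNormSq (monomial α 1 * p) = hardyNormSq p := by
  rw [hardy_eq, hardy_eq, ip_shift]

lemma hardy_C (c : ℂ) (p : MvPolynomial (Fin N) ℂ) :
    hardyNormSq (C c * p) = ‖c‖ ^ 2 * hardyNormSq p := by
  rw [hardy_eq, hardy_eq, ip_C_left, ip_C_right, ← mul_assoc, Complex.mul_conj,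
    Complex.normSq_eq_norm_sq, Complex.re_ofReal_mul]

/-- a polynomial orthogonal to all `z^γ f` is orthogonal to all `r f` -/
lemma ip_mul_eq_zero {I : Set (Fin N →₀ ℕ)} {f g r : MvPolynomial (Fin N) ℂ}
    (h : ∀ γ ∈ I, ip g (monomial γ 1 * f) = 0) (hr : InSpan I r) : ip g (r * f) = 0 := by
  have h1 : r * f = ∑ γ ∈ r.support, C (r.coeff γ) * (monomial γ 1 * f) := by
    conv_lhs => rw [r.as_sum, Finset.sum_mul]
    refine Finset.sum_congr rfl fun γ _ => ?_
    rw [← mul_assoc, C_mul_monomial, mul_one]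
  rw [h1, ip_sum_right]
  refine Finset.sum_eq_zero fun γ hγ => ?_
  rw [ip_C_right, h γ (hr γ hγ), mul_zero]

lemma inSpan_sub {I : Set (Fin N →₀ ℕ)} {p q : MvPolynomial (Fin N) ℂ} (hp : InSpan I p)
    (hq : InSpan I q) : InSpan I (p - q) := by
  classical
  intro m hm
  rw [mem_support_iff, coeff_sub] at hm
  by_cases h : p.coeff m = 0
  · exact hq m (by rw [mem_support_iff]; intro h'; exact hm (by rw [h, h', sub_zero]))
  · exact hp m (by rw [mem_support_iff]; exact h)

lemma inSpan_add {I : Set (Fin N →₀ ℕ)} {p q : MvPolynomial (Fin N) ℂ} (hp : InSpan I p)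
    (hq : InSpan I q) : InSpan I (p + q) := by
  classical
  intro m hm
  rw [mem_support_iff, coeff_add] at hm
  by_cases h : p.coeff m = 0
  · exact hq m (by rw [mem_support_iff]; intro h'; exact hm (by rw [h, h', add_zero]))
  · exact hp m (by rw [mem_support_iff]; exact h)

lemma inSpan_C_mul {I : Set (Fin N →₀ ℕ)} {p : MvPolynomial (Fin N) ℂ} (c : ℂ) (hp : InSpan I p) :
    InSpan I (C c * p) := by
  intro m hm
  rw [mem_support_iff, coeff_C_mul] at hm
  exact hp m (by rw [mem_support_iff]; intro h; exact hm (by rw [h, mul_zero]))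

lemma inSpan_monomial {I : Set (Fin N →₀ ℕ)} {m : Fin N →₀ ℕ} (c : ℂ) (hm : m ∈ I) :
    InSpan I (monomial m c) := by
  classical
  intro m' hm'
  have := support_monomial_subset hm'
  rw [Finset.mem_singleton] at this
  rw [this]
  exact hm

lemma inSpan_sum {I : Set (Fin N →₀ ℕ)} {ι : Type} (s : Finset ι)
    (g : ι → MvPolynomial (Fin N) ℂ) (h : ∀ i ∈ s, InSpan I (g i)) :
    InSpan I (∑ i ∈ s, g i) := by
  classical
  induction s using Finset.induction_on with
  | empty => intro m hm; simp at hm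
  | insert i s hi ih =>
    rw [Finset.sum_insert hi]
    exact inSpan_add (h i (Finset.mem_insert_self _ _))
      (ih fun j hj => h j (Finset.mem_insert_of_mem hj))

/-- orthogonality implies optimality and uniqueness -/
theorem opa_of_orth {I : Set (Fin N →₀ ℕ)} {f q : MvPolynomial (Fin N) ℂ} (hf : f ≠ 0)
    (hq : InSpan I q) (h : ∀ γ ∈ I, ip (q * f - 1) (monomial γ 1 * f) = 0) :
    IsOPA I f q ∧ ∀ q', IsOPA I f q' → q' = q := by
  have key : ∀ p, InSpan I p →
      hardyNormSq (p * f - 1) = hardyNormSq (q * f - 1) + hardyNormSq ((p - q) * f) := by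
    intro p hp
    have h1 : p * f - 1 = (q * f - 1) + (p - q) * f := by ring
    rw [h1, hardy_add, ip_mul_eq_zero h (inSpan_sub hp hq)]
    simp
  refine ⟨⟨hq, fun p hp => ?_⟩, fun q' hq' => ?_⟩
  · rw [key p hp]
    have := hardy_nonneg ((p - q) * f)
    linarith
  · have h1 := hq'.2 q hq
    rw [key q' hq'.1] at h1
    have h2 := hardy_nonneg ((q' - q) * f)
    have h3 := hardy_eq_zero (le_antisymm (by linarith) h2)
    rcases mul_eq_zero.1 h3 with h4 | h4
    · exact sub_eq_zero.1 h4
    · exact absurd h4 hf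

/-- optimality implies orthogonality -/
theorem orth_of_opa {I : Set (Fin N →₀ ℕ)} {f q r : MvPolynomial (Fin N) ℂ} (h : IsOPA I f q)
    (hr : InSpan I r) : ip (q * f - 1) (r * f) = 0 := by
  by_contra hne
  have hpos : 0 < ‖ip (q * f - 1) (r * f)‖ ^ 2 := by positivity
  have hK := hardy_nonneg (r * f)
  obtain ⟨t, ht⟩ : ∃ t : ℝ, t = 1 / (1 + hardyNormSq (r * f)) := ⟨_, rfl⟩
  have ht0 : 0 < t := by rw [ht]; positivity
  have h1 := h.2 (q - C ((t : ℂ) * ip (q * f - 1) (r * f)) * r)
    (inSpan_sub h.1 (inSpan_C_mul _ hr))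
  have h2 : (q - C ((t : ℂ) * ip (q * f - 1) (r * f)) * r) * f - 1 =
      (q * f - 1) + C (-((t : ℂ) * ip (q * f - 1) (r * f))) * (r * f) := by
    rw [map_neg]; ring
  rw [h2, hardy_add, hardy_C, ip_C_right, norm_neg, norm_mul, Complex.norm_real,
    Real.norm_eq_abs, abs_of_pos ht0, map_neg, map_mul, Complex.conj_ofReal] at h1
  have h3 : (-((t : ℂ) * (starRingEnd ℂ) (ip (q * f - 1) (r * f))) * ip (q * f - 1) (r * f)).re =
      - (t * ‖ip (q * f - 1) (r * f)‖ ^ 2) := by
    have : (-((t : ℂ) * (starRingEnd ℂ) (ip (q * f - 1) (r * f))) * ip (q * f - 1) (r * f)) =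
        ((-(t * ‖ip (q * f - 1) (r * f)‖ ^ 2) : ℝ) : ℂ) := by
      push_cast
      rw [← Complex.mul_conj']
      ring
    rw [this, Complex.ofReal_re]
  rw [h3] at h1
  have h4 : t * hardyNormSq (r * f) < 1 := by
    rw [ht, one_div, inv_mul_lt_iff₀ (by positivity)]
    linarith
  have h5 : 0 < t * ‖ip (q * f - 1) (r * f)‖ ^ 2 := by positivity
  nlinarith [mul_lt_mul_of_pos_left h4 h5]

end Pool.Agent.Y307.WS
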