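import Pool.Agent.Y307.WS.Basic

set_option autoImplicit false

open MvPolynomial Finset

namespace Pool.Agent.Y307.WS

variable {N : ℕ}

/-- the coefficients of `(3+2A)(3+2B)(2+AB)²` -/
def F : ℕ → ℕ → ℤ
  | 0, 0 => 36
  | 1, 1 => 52
  | 2, 2 => 25
  | 3, 3 => 4
  | 1, 0 => 24
  | 0, 1 => 24
  | 2, 1 => 24
  | 1, 2 => 24
  | 3, 2 => 6
  | 2, 3 => 6
  | _, _ => 0

/-- the polynomial `(3+2A)(3+2B)(2+AB)²` for two monomials `A`, `B` -/
noncomputable def fP (a b : Fin N →₀ ℕ) : MvPolynomial (Fin N) ℂ :=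
  (3 + 2 * monomial a 1) * (3 + 2 * monomial b 1) * (2 + monomial a 1 * monomial b 1) ^ 2

lemma mono (a b : Fin N →₀ ℕ) (u v : ℕ) (c : ℂ) :
    (monomial (u • a + v • b) c : MvPolynomial (Fin N) ℂ) =
      C c * ((monomial a 1) ^ u * (monomial b 1) ^ v) := by
  rw [monomial_pow, monomial_pow, monomial_mul, C_mul_monomial]
  simp

lemma f_eq (a b : Fin N →₀ ℕ) : fP a b =
    ∑ u ∈ range 4, ∑ v ∈ range 4, monomial (u • a + v • b) ((F u v : ℤ) : ℂ) := by
  simp only [mono, Finset.sum_range_succ, Finset.sum_range_zero, F, fP]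
  push_cast
  simp only [map_zero, zero_mul, add_zero, zero_add]
  have h36 : (C (36 : ℂ) : MvPolynomial (Fin N) ℂ) = 36 := rfl
  have h52 : (C (52 : ℂ) : MvPolynomial (Fin N) ℂ) = 52 := rfl
  have h25 : (C (25 : ℂ) : MvPolynomial (Fin N) ℂ) = 25 := rfl
  have h4 : (C (4 : ℂ) : MvPolynomial (Fin N) ℂ) = 4 := rfl
  have h24 : (C (24 : ℂ) : MvPolynomial (Fin N) ℂ) = 24 := rfl
  have h6 : (C (6 : ℂ) : MvPolynomial (Fin N) ℂ) = 6 := rfl
  rw [h36, h52, h25, h4, h24, h6]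
  ring

lemma ip_gg (a b β γ : Fin N →₀ ℕ) :
    ip (monomial β 1 * fP a b) (monomial γ 1 * fP a b) =
      ∑ u ∈ range 4, ∑ v ∈ range 4, ∑ u' ∈ range 4, ∑ v' ∈ range 4,
        if γ + (u' • a + v' • b) = β + (u • a + v • b) then
          ((F u v : ℤ) : ℂ) * ((F u' v' : ℤ) : ℂ) else 0 := by
  have hl : ∀ δ : Fin N →₀ ℕ, (monomial δ 1 * fP a b : MvPolynomial (Fin N) ℂ) =
      ∑ u ∈ range 4, ∑ v ∈ range 4, monomial (δ + (u • a + v • b)) ((F u v : ℤ) : ℂ) := by
    intro δ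
    rw [f_eq]
    simp only [Finset.mul_sum, monomial_mul, one_mul]
  rw [hl β, ip_sum_left]
  refine Finset.sum_congr rfl fun u _ => ?_
  rw [ip_sum_left]
  refine Finset.sum_congr rfl fun v _ => ?_
  rw [hl γ, ip_sum_right]
  refine Finset.sum_congr rfl fun u' _ => ?_
  rw [ip_sum_right]
  refine Finset.sum_congr rfl fun v' _ => ?_
  rw [ip_monomial_right, coeff_monomial]
  by_cases h : γ + (u' • a + v' • b) = β + (u • a + v • b)
  · rw [if_pos h, if_pos h.symm]
    congr 1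
    simp
  · rw [if_neg h, if_neg (fun h' => h h'.symm), zero_mul]

/-- integer correlations -/
def corr (i j i' j' : ℕ) : ℤ :=
  ∑ u ∈ range 4, ∑ v ∈ range 4, ∑ u' ∈ range 4, ∑ v' ∈ range 4,
    if i' + u' = i + u ∧ j' + v' = j + v then F u v * F u' v' else 0

/-- independence of two exponents -/
def Ind (a b : Fin N →₀ ℕ) : Prop :=
  ∀ x y : ℤ, (∀ k, x * a k + y * b k = 0) → x = 0 ∧ y = 0

lemma psi_inj {a b : Fin N →₀ ℕ} (h : Ind a b) {u v u' v' : ℕ} :
    u' • a + v' • b = u • a + v • b ↔ u' = u ∧ v' = v := by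
  constructor
  · intro he
    have h1 := h ((u' : ℤ) - u) ((v' : ℤ) - v) (fun k => by
      have := DFunLike.congr_fun he k
      simp only [Finsupp.add_apply, Finsupp.smul_apply, smul_eq_mul] at this
      have h2 : ((u' : ℤ) * a k + v' * b k) = u * a k + v * b k := by exact_mod_cast this
      linear_combination h2)
    constructor <;> omega
  · rintro ⟨rfl, rfl⟩; rfl

lemma ip_gg_psi {a b : Fin N →₀ ℕ} (h : Ind a b) (i j i' j' : ℕ) :
    ip (monomial (i • a + j • b) 1 * fP a b) (monomial (i' • a + j' • b) 1 * fP a b) =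
      ((corr i j i' j' : ℤ) : ℂ) := by
  rw [ip_gg, corr]
  push_cast
  refine Finset.sum_congr rfl fun u _ => Finset.sum_congr rfl fun v _ =>
    Finset.sum_congr rfl fun u' _ => Finset.sum_congr rfl fun v' _ => ?_
  have h1 : i' • a + j' • b + (u' • a + v' • b) = i • a + j • b + (u • a + v • b) ↔
      (i' + u' = i + u ∧ j' + v' = j + v) := by
    rw [← psi_inj h]
    constructor
    · intro h'
      rw [add_smul, add_smul, add_smul, add_smul]
      calc i' • a + u' • a + (j' • b + v' • b) = i' • a + j' • b + (u' • a + v' • b) := by abel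
        _ = i • a + j • b + (u • a + v • b) := h'
        _ = i • a + u • a + (j • b + v • b) := by abel
    · intro h'
      rw [add_smul, add_smul, add_smul, add_smul] at h'
      calc i' • a + j' • b + (u' • a + v' • b) = i' • a + u' • a + (j' • b + v' • b) := by abel
        _ = i • a + u • a + (j • b + v • b) := h'
        _ = i • a + j • b + (u • a + v • b) := by abel
  by_cases h2 : i' + u' = i + u ∧ j' + v' = j + v
  · rw [if_pos (h1.2 h2), if_pos h2]
    try push_cast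
    try rfl
  · rw [if_neg (fun h' => h2 (h1.1 h')), if_neg h2]
    try simp

lemma c0000 : corr 0 0 0 0 = 7017 := by decide +kernel
lemma c1010 : corr 1 0 1 0 = 7017 := by decide +kernel
lemma c0101 : corr 0 1 0 1 = 7017 := by decide +kernel
lemma c1111 : corr 1 1 1 1 = 7017 := by decide +kernel
lemma c0010 : corr 0 0 1 0 = 4134 := by decide +kernel
lemma c1000 : corr 1 0 0 0 = 4134 := by decide +kernel
lemma c0001 : corr 0 0 0 1 = 4134 := by decide +kernel
lemma c0100 : corr 0 1 0 0 = 4134 := by decide +kernel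
lemma c1011 : corr 1 0 1 1 = 4134 := by decide +kernel
lemma c1110 : corr 1 1 1 0 = 4134 := by decide +kernel
lemma c0111 : corr 0 1 1 1 = 4134 := by decide +kernel
lemma c1101 : corr 1 1 0 1 = 4134 := by decide +kernel
lemma c1001 : corr 1 0 0 1 = 1188 := by decide +kernel
lemma c0110 : corr 0 1 1 0 = 1188 := by decide +kernel
lemma c0011 : corr 0 0 1 1 = 4712 := by decide +kernel
lemma c1100 : corr 1 1 0 0 = 4712 := by decide +kernel

/-- the approximant -/
noncomputable def Q (a b : Fin N →₀ ℕ) (x y z : ℂ) : MvPolynomial (Fin N) ℂ :=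
  C x * monomial (0 • a + 0 • b) 1 + C y * monomial (1 • a + 0 • b) 1 +
    C y * monomial (0 • a + 1 • b) 1 + C z * monomial (1 • a + 1 • b) 1

lemma ip_Q (a b : Fin N →₀ ℕ) (x y z : ℂ) (g : MvPolynomial (Fin N) ℂ) :
    ip (Q a b x y z * fP a b - 1) g =
      x * ip (monomial (0 • a + 0 • b) 1 * fP a b) g +
      y * ip (monomial (1 • a + 0 • b) 1 * fP a b) g +
      y * ip (monomial (0 • a + 1 • b) 1 * fP a b) g +
      z * ip (monomial (1 • a + 1 • b) 1 * fP a b) g - (starRingEnd ℂ) (g.coeff 0) := by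
  have h : Q a b x y z * fP a b = C x * (monomial (0 • a + 0 • b) 1 * fP a b) +
      C y * (monomial (1 • a + 0 • b) 1 * fP a b) +
      C y * (monomial (0 • a + 1 • b) 1 * fP a b) +
      C z * (monomial (1 • a + 1 • b) 1 * fP a b) := by
    rw [Q]; ring
  rw [ip_sub_left, h, ip_add_left, ip_add_left, ip_add_left, ip_C_left, ip_C_left, ip_C_left,
    ip_C_left, ip_one_left]

lemma constantCoeff_mono {a : Fin N →₀ ℕ} (ha : a ≠ 0) :
    constantCoeff (monomial a (1 : ℂ)) = 0 := by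
  classical
  rw [constantCoeff_eq, coeff_monomial, if_neg ha]

lemma coeff_zero_f {a b : Fin N →₀ ℕ} (ha : a ≠ 0) (hb : b ≠ 0) : (fP a b).coeff 0 = 36 := by
  rw [← constantCoeff_eq, fP]
  simp only [map_mul, map_add, map_pow, constantCoeff_mono ha, constantCoeff_mono hb, map_ofNat]
  norm_num

lemma coeff_zero_g {a b : Fin N →₀ ℕ} {γ : Fin N →₀ ℕ} (hγ : γ ≠ 0) :
    (monomial γ 1 * fP a b).coeff 0 = 0 := by
  rw [← constantCoeff_eq, map_mul, constantCoeff_mono hγ, zero_mul]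

lemma ind_ne {a b : Fin N →₀ ℕ} (h : Ind a b) : a ≠ 0 ∧ b ≠ 0 := by
  constructor
  · rintro rfl
    have := h 1 0 (fun k => by simp)
    omega
  · rintro rfl
    have := h 0 1 (fun k => by simp)
    omega

/-- the relation of exponents modulo the lattice -/
def Rel (a b γ : Fin N →₀ ℕ) : Prop :=
  ∃ u v u' v' : ℕ, γ + (u' • a + v' • b) = u • a + v • b

lemma ip_zero_of_not_rel {a b γ : Fin N →₀ ℕ} (h : ¬ Rel a b γ) (i j : ℕ) :
    ip (monomial (i • a + j • b) 1 * fP a b) (monomial γ 1 * fP a b) = 0 := by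
  rw [ip_gg]
  refine Finset.sum_eq_zero fun u _ => Finset.sum_eq_zero fun v _ =>
    Finset.sum_eq_zero fun u' _ => Finset.sum_eq_zero fun v' _ => ?_
  rw [if_neg]
  intro h'
  refine h ⟨i + u, j + v, u', v', ?_⟩
  rw [h', add_smul, add_smul]
  abel

/-- orthogonality for the four exponents of the lattice -/
lemma orth_lattice {a b : Fin N →₀ ℕ} (h : Ind a b) (x y z : ℂ) (i j : ℕ) :
    ip (Q a b x y z * fP a b - 1) (monomial (i • a + j • b) 1 * fP a b) =
      x * ((corr 0 0 i j : ℤ) : ℂ) + y * ((corr 1 0 i j : ℤ) : ℂ) + y * ((corr 0 1 i j : ℤ) : ℂ) +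
        z * ((corr 1 1 i j : ℤ) : ℂ) - (if i = 0 ∧ j = 0 then 36 else 0) := by
  obtain ⟨ha, hb⟩ := ind_ne h
  rw [ip_Q, ip_gg_psi h, ip_gg_psi h, ip_gg_psi h, ip_gg_psi h]
  congr 1
  by_cases h0 : i = 0 ∧ j = 0
  · obtain ⟨rfl, rfl⟩ := h0
    rw [if_pos ⟨rfl, rfl⟩]
    have : (monomial (0 • a + 0 • b) 1 * fP a b) = fP a b := by
      rw [zero_smul, zero_smul, add_zero]
      exact one_mul _
    rw [this, coeff_zero_f ha hb]
    exact map_ofNat _ 36
  · rw [if_neg h0, coeff_zero_g, map_zero]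
    intro h1
    have h2 : i • a + j • b = 0 • a + 0 • b := by rw [h1]; simp
    exact h0 ((psi_inj h).1 h2)

lemma Q_inSpan {a b : Fin N →₀ ℕ} {I : Set (Fin N →₀ ℕ)} (h0 : (0 : Fin N →₀ ℕ) ∈ I) (ha : a ∈ I)
    (hb : b ∈ I) {x y z : ℂ} (hz : z = 0 ∨ a + b ∈ I) : InSpan I (Q a b x y z) := by
  unfold Q
  refine inSpan_add (inSpan_add (inSpan_add ?_ ?_) ?_) ?_
  · exact inSpan_C_mul _ (inSpan_monomial _ (by simpa using h0))
  · exact inSpan_C_mul _ (inSpan_monomial _ (by simpa using ha))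
  · exact inSpan_C_mul _ (inSpan_monomial _ (by simpa using hb))
  · rcases hz with rfl | h
    · intro m hm
      simp at hm
    · exact inSpan_C_mul _ (inSpan_monomial _ (by simpa using h))

lemma f_ne_zero {a b : Fin N →₀ ℕ} (h : Ind a b) : fP a b ≠ 0 := by
  obtain ⟨ha, hb⟩ := ind_ne h
  intro h0
  have := coeff_zero_f ha hb
  rw [h0, coeff_zero] at this
  norm_num at this

lemma norm_mono_le (a : Fin N →₀ ℕ) {z : Fin N → ℂ} (hz : ∀ i, ‖z i‖ ≤ 1) :
    ‖eval z (monomial a (1 : ℂ))‖ ≤ 1 := by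
  rw [eval_monomial, one_mul, Finsupp.prod, norm_prod]
  refine Finset.prod_le_one (fun _ _ => norm_nonneg _) fun i _ => ?_
  rw [norm_pow]
  exact pow_le_one₀ (norm_nonneg _) (hz i)

lemma f_zero_free (a b : Fin N →₀ ℕ) {z : Fin N → ℂ} (hz : ∀ i, ‖z i‖ ≤ 1) :
    eval z (fP a b) ≠ 0 := by
  have hA := norm_mono_le a hz
  have hB := norm_mono_le b hz
  rw [fP]
  simp only [map_mul, map_add, map_pow, map_ofNat]
  obtain ⟨A, hAe⟩ : ∃ A, A = eval z (monomial a (1 : ℂ)) := ⟨_, rfl⟩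
  obtain ⟨B, hBe⟩ : ∃ B, B = eval z (monomial b (1 : ℂ)) := ⟨_, rfl⟩
  rw [← hAe, ← hBe]
  rw [← hAe] at hA
  rw [← hBe] at hB
  have k1 : ∀ w : ℂ, ‖w‖ ≤ 1 → (3 + 2 * w : ℂ) ≠ 0 := by
    intro w hw h
    have h1 : ‖(3 : ℂ)‖ = ‖2 * w‖ := by
      rw [show (3 : ℂ) = -(2 * w) by linear_combination h, norm_neg]
    rw [norm_mul] at h1
    norm_num at h1
    linarith
  have k2 : (2 + A * B : ℂ) ≠ 0 := by
    intro h
    have h1 : ‖(2 : ℂ)‖ = ‖A * B‖ := by
      rw [show (2 : ℂ) = -(A * B) by linear_combination h, norm_neg]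
    rw [norm_mul] at h1
    norm_num at h1
    nlinarith [norm_nonneg A, norm_nonneg B]
  exact mul_ne_zero (mul_ne_zero (k1 A hA) (k1 B hB)) (pow_ne_zero 2 k2)

/-- total degree -/
def deg (a : Fin N →₀ ℕ) : ℕ := ∑ i, a i

lemma deg_pos {a : Fin N →₀ ℕ} (ha : a ≠ 0) : 0 < deg a := by
  by_contra h
  have h0 : deg a = 0 := by omega
  apply ha
  ext i
  unfold deg at h0
  rw [Finset.sum_eq_zero_iff] at h0
  exact h0 i (Finset.mem_univ i)

lemma eval_diag (a : Fin N →₀ ℕ) (s : ℂ) :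
    eval (fun _ => s) (monomial a (1 : ℂ)) = s ^ deg a := by
  rw [eval_monomial, one_mul, Finsupp.prod_fintype _ _ (by simp), deg, Finset.prod_pow_eq_pow_sum]

lemma exists_zero {x y z : ℝ} (hx : 0 < x) (h1 : x + 2 * y + z < 0) {n m : ℕ} (hn : 0 < n)
    (hm : 0 < m) : ∃ s : ℝ, 0 < s ∧ s < 1 ∧ x + y * s ^ n + y * s ^ m + z * (s ^ n * s ^ m) = 0 := by
  have hc : ContinuousOn (fun s : ℝ => x + y * s ^ n + y * s ^ m + z * (s ^ n * s ^ m))
      (Set.Icc 0 1) := by fun_prop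
  have h2 := intermediate_value_Icc' (zero_le_one' ℝ) hc
  have h3 : (0 : ℝ) ∈ Set.Icc
      ((fun s : ℝ => x + y * s ^ n + y * s ^ m + z * (s ^ n * s ^ m)) 1)
      ((fun s : ℝ => x + y * s ^ n + y * s ^ m + z * (s ^ n * s ^ m)) 0) := by
    constructor
    · simp only [one_pow]
      linarith
    · simp only [zero_pow hn.ne', zero_pow hm.ne']
      linarith
  obtain ⟨s, hs, hs0⟩ := h2 h3
  refine ⟨s, ?_, ?_, hs0⟩
  · rcases eq_or_lt_of_le hs.1 with h | h
    · exfalso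
      rw [← h] at hs0
      simp only [zero_pow hn.ne', zero_pow hm.ne'] at hs0
      linarith
    · exact h
  · rcases eq_or_lt_of_le hs.2 with h | h
    · exfalso
      rw [h] at hs0
      simp only [one_pow] at hs0
      linarith
    · exact h

lemma Q_zero {a b : Fin N →₀ ℕ} (h : Ind a b) {x y z : ℝ} (hx : 0 < x)
    (h1 : x + 2 * y + z < 0) : ∃ s : ℝ, 0 < s ∧ s < 1 ∧
      eval (fun _ : Fin N => (s : ℂ)) (Q a b (x : ℂ) (y : ℂ) (z : ℂ)) = 0 := by
  obtain ⟨ha, hb⟩ := ind_ne h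
  obtain ⟨s, hs0, hs1, hs⟩ := exists_zero hx h1 (deg_pos ha) (deg_pos hb)
  refine ⟨s, hs0, hs1, ?_⟩
  · have e0 : eval (fun _ => (s : ℂ)) (monomial (0 • a + 0 • b) (1 : ℂ)) = 1 := by
      rw [mono]; simp
    have e1 : eval (fun _ => (s : ℂ)) (monomial (1 • a + 0 • b) (1 : ℂ)) = (s : ℂ) ^ deg a := by
      rw [mono]; simp [eval_diag]
    have e2 : eval (fun _ => (s : ℂ)) (monomial (0 • a + 1 • b) (1 : ℂ)) = (s : ℂ) ^ deg b := by
      rw [mono]; simp [eval_diag]
    have e3 : eval (fun _ => (s : ℂ)) (monomial (1 • a + 1 • b) (1 : ℂ)) =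
        (s : ℂ) ^ deg a * (s : ℂ) ^ deg b := by
      rw [mono]
      simp only [map_mul, map_pow, eval_C, eval_diag, pow_one, one_mul]
    rw [Q]
    simp only [map_add, map_mul, eval_C, e0, e1, e2, e3, mul_one]
    exact_mod_cast hs

/-- the local form -/
theorem local_form {a b : Fin N →₀ ℕ} (h : Ind a b) {I : Set (Fin N →₀ ℕ)}
    (h0 : (0 : Fin N →₀ ℕ) ∈ I) (ha : a ∈ I) (hb : b ∈ I)
    (hI : ∀ γ ∈ I, Rel a b γ → γ = 0 ∨ γ = a ∨ γ = b ∨ γ = a + b) :
    ∃ q, (IsOPA I (fP a b) q ∧ ∀ q', IsOPA I (fP a b) q' → q' = q) ∧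
      ∃ s : ℝ, 0 < s ∧ s < 1 ∧ eval (fun _ : Fin N => (s : ℂ)) q = 0 := by
  obtain ⟨ha0, hb0⟩ := ind_ne h
  have n0 : (0 : Fin N →₀ ℕ) = 0 • a + 0 • b := by simp
  have na : a = 1 • a + 0 • b := by simp
  have nb : b = 0 • a + 1 • b := by simp
  have nab : a + b = 1 • a + 1 • b := by simp
  by_cases hab : a + b ∈ I
  · obtain ⟨x, hx⟩ : ∃ x : ℝ, x = 36 * 23394573 / 64255611405 := ⟨_, rfl⟩
    obtain ⟨y, hy⟩ : ∃ y : ℝ, y = -(36 * 9528870) / 64255611405 := ⟨_, rfl⟩
    obtain ⟨z, hz⟩ : ∃ z : ℝ, z = -(36 * 4482048) / 64255611405 := ⟨_, rfl⟩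
    refine ⟨Q a b (x : ℂ) (y : ℂ) (z : ℂ), ?_, Q_zero h (by rw [hx]; norm_num)
      (by rw [hx, hy, hz]; norm_num)⟩
    refine opa_of_orth (f_ne_zero h) (Q_inSpan h0 ha hb (Or.inr hab)) fun γ hγ => ?_
    by_cases hr : Rel a b γ
    · rcases hI γ hγ hr with rfl | rfl | rfl | rfl
      · rw [n0, orth_lattice h, c0000, c1000, c0100, c1100, hx, hy, hz]
        push_cast
        norm_num
      · conv_lhs => rw [na]
        rw [← na]
        conv_lhs => rw [show (monomial γ 1 : MvPolynomial (Fin N) ℂ) =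
          monomial (1 • γ + 0 • b) 1 from by rw [← na]]
        rw [orth_lattice h, c0010, c1010, c0110, c1110, hx, hy, hz]
        push_cast
        norm_num
      · conv_lhs => rw [show (monomial γ 1 : MvPolynomial (Fin N) ℂ) =
          monomial (0 • a + 1 • γ) 1 from by rw [← nb]]
        rw [orth_lattice h, c0001, c1001, c0101, c1101, hx, hy, hz]
        push_cast
        norm_num
      · rw [nab, orth_lattice h, c0011, c1011, c0111, c1111, hx, hy, hz]
        push_cast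
        norm_num
    · have hγ0 : γ ≠ 0 := by
        rintro rfl
        exact hr ⟨0, 0, 0, 0, by simp⟩
      rw [ip_Q, ip_zero_of_not_rel hr, ip_zero_of_not_rel hr, ip_zero_of_not_rel hr,
        ip_zero_of_not_rel hr, coeff_zero_g hγ0]
      simp
  · obtain ⟨x, hx⟩ : ∃ x : ℝ, x = 36 * 8205 / 23394573 := ⟨_, rfl⟩
    obtain ⟨y, hy⟩ : ∃ y : ℝ, y = -(36 * 4134) / 23394573 := ⟨_, rfl⟩
    obtain ⟨z, hz⟩ : ∃ z : ℝ, z = 0 := ⟨_, rfl⟩
    refine ⟨Q a b (x : ℂ) (y : ℂ) (z : ℂ), ?_, Q_zero h (by rw [hx]; norm_num)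
      (by rw [hx, hy, hz]; norm_num)⟩
    refine opa_of_orth (f_ne_zero h) (Q_inSpan h0 ha hb (Or.inl (by rw [hz]; simp)))
      fun γ hγ => ?_
    by_cases hr : Rel a b γ
    · rcases hI γ hγ hr with rfl | rfl | rfl | rfl
      · rw [n0, orth_lattice h, c0000, c1000, c0100, c1100, hx, hy, hz]
        push_cast
        norm_num
      · conv_lhs => rw [show (monomial γ 1 : MvPolynomial (Fin N) ℂ) =
          monomial (1 • γ + 0 • b) 1 from by rw [← na]]
        rw [orth_lattice h, c0010, c1010, c0110, c1110, hx, hy, hz]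
        push_cast
        norm_num
      · conv_lhs => rw [show (monomial γ 1 : MvPolynomial (Fin N) ℂ) =
          monomial (0 • a + 1 • γ) 1 from by rw [← nb]]
        rw [orth_lattice h, c0001, c1001, c0101, c1101, hx, hy, hz]
        push_cast
        norm_num
      · exact absurd hγ hab
    · have hγ0 : γ ≠ 0 := by
        rintro rfl
        exact hr ⟨0, 0, 0, 0, by simp⟩
      rw [ip_Q, ip_zero_of_not_rel hr, ip_zero_of_not_rel hr, ip_zero_of_not_rel hr,
        ip_zero_of_not_rel hr, coeff_zero_g hγ0]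
      simp

end Pool.Agent.Y307.WS
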