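import Pool.Agent.Y307.WS.Ex

set_option autoImplicit false

open MvPolynomial Finset

namespace Pool.Agent.Y307.WS

variable {N : ℕ}

/-- the size of the exterior product -/
def D (a b : Fin N →₀ ℕ) : ℕ :=
  ∑ i, ∑ j, ((a i : ℤ) * b j - a j * b i).natAbs

lemma D_left {a b γ : Fin N →₀ ℕ} {x y : ℤ} (h : ∀ k, (γ k : ℤ) = x * a k + y * b k) :
    D γ b = x.natAbs * D a b := by
  unfold D
  rw [Finset.mul_sum]
  refine Finset.sum_congr rfl fun i _ => ?_
  rw [Finset.mul_sum]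
  refine Finset.sum_congr rfl fun j _ => ?_
  rw [← Int.natAbs_mul, h i, h j]
  congr 1
  ring

lemma D_right {a b γ : Fin N →₀ ℕ} {x y : ℤ} (h : ∀ k, (γ k : ℤ) = x * a k + y * b k) :
    D a γ = y.natAbs * D a b := by
  unfold D
  rw [Finset.mul_sum]
  refine Finset.sum_congr rfl fun i _ => ?_
  rw [Finset.mul_sum]
  refine Finset.sum_congr rfl fun j _ => ?_
  rw [← Int.natAbs_mul, h i, h j]
  congr 1
  ring

lemma ind_of_D {a b : Fin N →₀ ℕ} (h : 0 < D a b) : Ind a b := by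
  obtain ⟨i, j, hij⟩ : ∃ i j, ((a i : ℤ) * b j - a j * b i) ≠ 0 := by
    by_contra hc
    push Not at hc
    have : D a b = 0 := by
      unfold D
      refine Finset.sum_eq_zero fun i _ => Finset.sum_eq_zero fun j _ => ?_
      rw [hc i j, Int.natAbs_zero]
    omega
  intro x y hxy
  have h1 := hxy i
  have h2 := hxy j
  constructor
  · have : x * ((a i : ℤ) * b j - a j * b i) = 0 := by linear_combination (b j : ℤ) * h1 - b i * h2
    rcases mul_eq_zero.1 this with h3 | h3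
    · exact h3
    · exact absurd h3 hij
  · have : y * ((a i : ℤ) * b j - a j * b i) = 0 := by
      linear_combination (a i : ℤ) * h2 - a j * h1
    rcases mul_eq_zero.1 this with h3 | h3
    · exact h3
    · exact absurd h3 hij

lemma D_pos {a b : Fin N →₀ ℕ} {i j : Fin N} (h : a i * b j ≠ a j * b i) : 0 < D a b := by
  have h1 : ((a i : ℤ) * b j - a j * b i) ≠ 0 := by
    intro h0
    apply h
    have : (a i : ℤ) * b j = a j * b i := by linear_combination h0
    exact_mod_cast this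
  have h2 : 0 < ((a i : ℤ) * b j - a j * b i).natAbs := Int.natAbs_pos.2 h1
  have h3 : ((a i : ℤ) * b j - a j * b i).natAbs ≤
      ∑ j, ((a i : ℤ) * b j - a j * b i).natAbs :=
    Finset.single_le_sum (f := fun j => ((a i : ℤ) * b j - a j * b i).natAbs)
      (fun _ _ => Nat.zero_le _) (Finset.mem_univ j)
  have h4 : ∑ j, ((a i : ℤ) * b j - a j * b i).natAbs ≤ D a b :=
    Finset.single_le_sum (f := fun i => ∑ j, ((a i : ℤ) * b j - a j * b i).natAbs)
      (fun _ _ => Nat.zero_le _) (Finset.mem_univ i)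
  omega

/-- a good pair of exponents -/
theorem exists_pair {I : Set (Fin N →₀ ℕ)} (hfin : I.Finite)
    (hI : ∃ a ∈ I, ∃ b ∈ I, ∃ i j, a i * b j ≠ a j * b i) :
    ∃ a ∈ I, ∃ b ∈ I, 0 < D a b ∧ (∀ a' ∈ I, ∀ b' ∈ I, D a' b' ≤ D a b) ∧
      ∀ a' ∈ I, ∀ b' ∈ I, D a' b' = D a b → deg a + deg b ≤ deg a' + deg b' := by
  classical
  obtain ⟨a0, ha0, b0, hb0, i, j, hij⟩ := hI
  have hne : (hfin.toFinset ×ˢ hfin.toFinset).Nonempty :=
    ⟨(a0, b0), by simp [ha0, hb0]⟩
  obtain ⟨p, hp, hmax⟩ := Finset.exists_max_image _ (fun p : (Fin N →₀ ℕ) × (Fin N →₀ ℕ) =>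
    D p.1 p.2) hne
  have hne2 : ((hfin.toFinset ×ˢ hfin.toFinset).filter fun q => D q.1 q.2 = D p.1 p.2).Nonempty :=
    ⟨p, by rw [Finset.mem_filter]; exact ⟨hp, rfl⟩⟩
  obtain ⟨q, hq, hmin⟩ := Finset.exists_min_image _ (fun p : (Fin N →₀ ℕ) × (Fin N →₀ ℕ) =>
    deg p.1 + deg p.2) hne2
  rw [Finset.mem_filter, Finset.mem_product, Set.Finite.mem_toFinset,
    Set.Finite.mem_toFinset] at hq
  refine ⟨q.1, hq.1.1, q.2, hq.1.2, ?_, ?_, ?_⟩
  · rw [hq.2]
    have := hmax (a0, b0) (by simp [ha0, hb0])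
    exact lt_of_lt_of_le (D_pos hij) this
  · intro a' ha' b' hb'
    rw [hq.2]
    exact hmax (a', b') (by simp [ha', hb'])
  · intro a' ha' b' hb' he
    exact hmin (a', b') (by
      rw [Finset.mem_filter]
      exact ⟨by simp [ha', hb'], by rw [← hq.2]; exact he⟩)

lemma deg_comb {a b γ : Fin N →₀ ℕ} {x y : ℤ} (h : ∀ k, (γ k : ℤ) = x * a k + y * b k) :
    (deg γ : ℤ) = x * deg a + y * deg b := by
  unfold deg
  push_cast
  rw [Finset.mul_sum, Finset.mul_sum, ← Finset.sum_add_distrib]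
  exact Finset.sum_congr rfl fun k _ => h k

/-- the exponents of the lattice in the index set -/
theorem classify {I : Set (Fin N →₀ ℕ)} {a b : Fin N →₀ ℕ} (ha : a ∈ I) (hb : b ∈ I)
    (hD : 0 < D a b) (hmax : ∀ a' ∈ I, ∀ b' ∈ I, D a' b' ≤ D a b)
    (hmin : ∀ a' ∈ I, ∀ b' ∈ I, D a' b' = D a b → deg a + deg b ≤ deg a' + deg b')
    {γ : Fin N →₀ ℕ} (hγ : γ ∈ I) (hr : Rel a b γ) : γ = 0 ∨ γ = a ∨ γ = b ∨ γ = a + b := by
  obtain ⟨ha0, hb0⟩ := ind_ne (ind_of_D hD)
  have hda := deg_pos ha0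
  have hdb := deg_pos hb0
  obtain ⟨u, v, u', v', he⟩ := hr
  obtain ⟨x, hx⟩ : ∃ x : ℤ, x = (u : ℤ) - u' := ⟨_, rfl⟩
  obtain ⟨y, hy⟩ : ∃ y : ℤ, y = (v : ℤ) - v' := ⟨_, rfl⟩
  have h : ∀ k, (γ k : ℤ) = x * a k + y * b k := by
    intro k
    have h1 := DFunLike.congr_fun he k
    simp only [Finsupp.add_apply, Finsupp.smul_apply, smul_eq_mul] at h1
    have h2 : (γ k : ℤ) + (u' * a k + v' * b k) = u * a k + v * b k := by exact_mod_cast h1
    rw [hx, hy]
    linear_combination h2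
  have hxl : x.natAbs ≤ 1 := by
    have h1 := hmax γ hγ b hb
    rw [D_left h] at h1
    by_contra hc
    have h2 : 2 ≤ x.natAbs := by omega
    nlinarith
  have hyl : y.natAbs ≤ 1 := by
    have h1 := hmax a ha γ hγ
    rw [D_right h] at h1
    by_contra hc
    have h2 : 2 ≤ y.natAbs := by omega
    nlinarith
  have hdeg := deg_comb h
  have hx' : x = -1 ∨ x = 0 ∨ x = 1 := by omega
  have hy' : y = -1 ∨ y = 0 ∨ y = 1 := by omega
  rcases hx' with hx1 | hx1 | hx1 <;> rcases hy' with hy1 | hy1 | hy1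
  · exfalso
    rw [hx1, hy1] at hdeg
    omega
  · exfalso
    rw [hx1, hy1] at hdeg
    omega
  · exfalso
    have h1 := hmin a ha γ hγ (by rw [D_right h, hy1]; simp)
    rw [hx1, hy1] at hdeg
    omega
  · exfalso
    rw [hx1, hy1] at hdeg
    omega
  · left
    ext k
    have := h k
    rw [hx1, hy1] at this
    simpa using this
  · right; right; left
    ext k
    have := h k
    rw [hx1, hy1] at this
    simpa using this
  · exfalso
    have h1 := hmin γ hγ b hb (by rw [D_left h, hx1]; simp)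
    rw [hx1, hy1] at hdeg
    omega
  · right; left
    ext k
    have := h k
    rw [hx1, hy1] at this
    simpa using this
  · right; right; right
    ext k
    have := h k
    rw [hx1, hy1] at this
    rw [Finsupp.add_apply]
    have h2 : (γ k : ℤ) = a k + b k := by linear_combination this
    exact_mod_cast h2

/-- failure for all index sets which are not contained in a line -/
theorem failure {I : Set (Fin N →₀ ℕ)} (hfin : I.Finite) (h0 : (0 : Fin N →₀ ℕ) ∈ I)
    (hI : ∃ a ∈ I, ∃ b ∈ I, ∃ i j, a i * b j ≠ a j * b i) :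
    ∃ a ∈ I, ∃ b ∈ I, ∃ f : MvPolynomial (Fin N) ℂ,
      f = (3 + 2 * monomial a 1) * (3 + 2 * monomial b 1) *
        (2 + monomial a 1 * monomial b 1) ^ 2 ∧
      (∀ z : Fin N → ℂ, (∀ i, ‖z i‖ ≤ 1) → eval z f ≠ 0) ∧
      ∃ q, (IsOPA I f q ∧ ∀ q', IsOPA I f q' → q' = q) ∧
        ∃ s : ℝ, 0 < s ∧ s < 1 ∧ eval (fun _ : Fin N => (s : ℂ)) q = 0 := by
  obtain ⟨a, ha, b, hb, hD, hmax, hmin⟩ := exists_pair hfin hI
  exact ⟨a, ha, b, hb, fP a b, rfl, fun z hz => f_zero_free a b hz,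
    local_form (ind_of_D hD) h0 ha hb fun γ hγ hr => classify ha hb hD hmax hmin hγ hr⟩

end Pool.Agent.Y307.WS
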